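import Mathlib
import Pool.Agent.P8H9.TQ.Stm

/-!
# Project TQ (helper9), package KAP: the loss under duplication at a complex place (author helper66)
-/

set_option autoImplicit false

namespace Pool.Agent.P8H66.TQ

open Pool.Agent.P8H9.TQ Pool.Agent.Y673.Loc Pool.Agent.Y733.LS

theorem key_ineq {h : ℝ} {ε z : ℂ} (h0 : 0 < h) (hh : h ≤ 1 / 1000) (hε : ‖ε‖ = h ^ 2) :
    clp h z ^ 2 * max ‖z‖ 1 ^ 4 ≤ 32 * max ‖(z ^ 2 - ε) ^ 2 + 4 * ε * (z + 1) ^ 2‖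
      (‖1 + z‖ * ‖z ^ 2 - ε‖) := by
  have hz0 : 0 ≤ ‖z‖ := norm_nonneg _
  have l1 : ‖z‖ ^ 2 - h ^ 2 ≤ ‖z ^ 2 - ε‖ := by
    have := norm_sub_norm_le (z ^ 2) ε
    rwa [norm_pow, hε] at this
  have l2 : ‖z ^ 2 - ε‖ ≤ ‖z‖ ^ 2 + h ^ 2 := by
    have := norm_sub_le (z ^ 2) ε
    rwa [norm_pow, hε] at this
  have l3 : 1 - ‖z‖ ≤ ‖1 + z‖ := by
    have := norm_sub_norm_le (1 : ℂ) (-z)
    rwa [norm_neg, norm_one, sub_neg_eq_add] at this
  have l4 : ‖1 + z‖ ≤ 1 + ‖z‖ := by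
    have := norm_add_le (1 : ℂ) z
    rwa [norm_one] at this
  have hn : ‖4 * ε * (z + 1) ^ 2‖ = 4 * h ^ 2 * ‖1 + z‖ ^ 2 := by
    rw [norm_mul, norm_mul, hε, norm_pow, add_comm z 1]
    norm_num
  have m1 : ‖z ^ 2 - ε‖ ^ 2 - 4 * h ^ 2 * ‖1 + z‖ ^ 2 ≤ ‖(z ^ 2 - ε) ^ 2 + 4 * ε * (z + 1) ^ 2‖ := by
    have := norm_sub_norm_le ((z ^ 2 - ε) ^ 2) (-(4 * ε * (z + 1) ^ 2))
    rwa [norm_neg, hn, norm_pow, sub_neg_eq_add] at this
  have m2 : 4 * h ^ 2 * ‖1 + z‖ ^ 2 - ‖z ^ 2 - ε‖ ^ 2 ≤ ‖(z ^ 2 - ε) ^ 2 + 4 * ε * (z + 1) ^ 2‖ := by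
    have := norm_sub_norm_le (4 * ε * (z + 1) ^ 2) (-((z ^ 2 - ε) ^ 2))
    rwa [norm_neg, hn, norm_pow, sub_neg_eq_add, add_comm (4 * ε * (z + 1) ^ 2)] at this
  set N := ‖(z ^ 2 - ε) ^ 2 + 4 * ε * (z + 1) ^ 2‖
  set u := ‖1 + z‖
  set v := ‖z ^ 2 - ε‖
  set t := ‖z‖
  have hu0 : 0 ≤ u := norm_nonneg _
  have hv0 : 0 ≤ v := norm_nonneg _
  have hh2 : h ^ 2 ≤ 1 / 1000000 := by nlinarith
  have hA1 : clp h z ≤ 1 := max_le (min_le_right _ _) (hh.trans (by norm_num))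
  have hA0 : 0 < clp h z := h0.trans_le (le_max_right _ _)
  rcases le_total t (1 / 4) with ht | ht
  · rw [max_eq_right (ht.trans (by norm_num)), one_pow, mul_one]
    rcases le_total (2 * h) t with ht2 | ht2
    · -- the middle range
      have hA : clp h z = t := by
        unfold clp
        rw [min_eq_left (ht.trans (by norm_num)), max_eq_left (by linarith)]
      rw [hA]
      have a1 : 3 / 4 ≤ u := by linarith
      have a2 : (3 / 4) * t ^ 2 ≤ v := by nlinarith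
      have a3 : (3 / 4) * ((3 / 4) * t ^ 2) ≤ u * v :=
        mul_le_mul a1 a2 (by positivity) hu0
      have a4 : u * v ≤ max N (u * v) := le_max_right _ _
      nlinarith [sq_nonneg t]
    · -- near zero
      have hA : clp h z ≤ 2 * h := max_le ((min_le_left _ _).trans ht2) (by linarith)
      have a1 : 1 - 2 / 1000 ≤ u := by linarith
      have a2 : v ≤ 5 * h ^ 2 := by nlinarith
      have a3 : v ^ 2 ≤ (5 * h ^ 2) ^ 2 := pow_le_pow_left₀ hv0 a2 2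
      have a4 : (1 - 2 / 1000) ^ 2 ≤ u ^ 2 := pow_le_pow_left₀ (by norm_num) a1 2
      have a5 : clp h z ^ 2 ≤ (2 * h) ^ 2 := pow_le_pow_left₀ hA0.le hA 2
      have a6 : N ≤ max N (u * v) := le_max_left _ _
      have hh0 : 0 < h ^ 2 := by positivity
      have a7 : 4 * h ^ 2 * (1 - 2 / 1000) ^ 2 ≤ 4 * h ^ 2 * u ^ 2 :=
        mul_le_mul_of_nonneg_left a4 (by positivity)
      have a8 : (5 * h ^ 2) ^ 2 ≤ 25 * (1 / 1000000) * h ^ 2 := by nlinarith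
      nlinarith
  · -- away from zero
    have a1 : (99 / 100) * t ^ 2 ≤ v := by nlinarith
    have a2 : u ≤ 5 * t := by linarith
    have a3 : ((99 / 100) * t ^ 2) ^ 2 ≤ v ^ 2 := pow_le_pow_left₀ (by positivity) a1 2
    have a4 : u ^ 2 ≤ (5 * t) ^ 2 := pow_le_pow_left₀ hu0 a2 2
    have a5 : 4 * h ^ 2 * u ^ 2 ≤ 4 * (1 / 1000000) * (25 * (16 * t ^ 4)) := by
      have b1 : (5 * t) ^ 2 ≤ 25 * (16 * t ^ 4) := by
        have b2 : 1 ≤ 16 * t ^ 2 := by nlinarith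
        nlinarith [sq_nonneg t]
      calc 4 * h ^ 2 * u ^ 2 ≤ 4 * (1 / 1000000) * u ^ 2 :=
            mul_le_mul_of_nonneg_right (by linarith) (sq_nonneg _)
        _ ≤ 4 * (1 / 1000000) * (25 * (16 * t ^ 4)) :=
            mul_le_mul_of_nonneg_left (a4.trans b1) (by norm_num)
    have a6 : t ^ 4 / 2 ≤ N := by nlinarith [pow_nonneg hz0 4]
    have a7 : N ≤ max N (u * v) := le_max_left _ _
    rcases le_total t 1 with ht1 | ht1
    · rw [max_eq_right ht1, one_pow, mul_one]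
      have hA : clp h z = t := by
        unfold clp
        rw [min_eq_left ht1, max_eq_left (by linarith)]
      rw [hA]
      have b2 : 1 ≤ 16 * t ^ 2 := by nlinarith
      have b3 : t ^ 2 ≤ 16 * t ^ 4 := by nlinarith [sq_nonneg t]
      linarith
    · rw [max_eq_left ht1]
      have b1 : clp h z ^ 2 ≤ 1 := pow_le_one₀ hA0.le hA1
      have b2 : clp h z ^ 2 * t ^ 4 ≤ 1 * t ^ 4 := mul_le_mul_of_nonneg_right b1 (by positivity)
      have b3 : 0 ≤ t ^ 4 := by positivity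
      linarith

theorem cab_apply (z : ℂ) : cab z = ‖z‖ := rfl

theorem sz_low {e η : ℂ} (he : e ≠ 0) (hη : ‖η / (3 * e)‖ ≤ 1 / 1000) :
    ‖e‖ ≤ sz cab (cA e η) (cB e η) := by
  have h1 := le_sz_sq (w := cab) (a := cA e η) (b := cB e η)
  have h2 := sz_nonneg (w := cab) (a := cA e η) (b := cB e η)
  rw [cab_apply] at h1
  have he' : 3 * e ≠ 0 := mul_ne_zero three_ne_zero he
  have h3 : cA e η = -(e ^ 2 * (3 + 9 * (η / (3 * e)) ^ 2)) := by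
    unfold cA
    field_simp
    ring
  have h4 : ‖(9 : ℂ) * (η / (3 * e)) ^ 2‖ ≤ 1 := by
    rw [norm_mul, norm_pow]
    have := pow_le_pow_left₀ (norm_nonneg _) hη 2
    norm_num at this ⊢
    linarith
  have h5 : 2 ≤ ‖(3 : ℂ) + 9 * (η / (3 * e)) ^ 2‖ := by
    have := norm_sub_norm_le (3 : ℂ) (-(9 * (η / (3 * e)) ^ 2))
    rw [norm_neg, sub_neg_eq_add] at this
    have h3 : ‖(3 : ℂ)‖ = 3 := by norm_num
    linarith
  have h6 : ‖e‖ ^ 2 ≤ ‖cA e η‖ := by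
    rw [h3, norm_neg, norm_mul, norm_pow]
    nlinarith [sq_nonneg ‖e‖]
  have h7 := h6.trans h1
  exact (pow_le_pow_iff_left₀ (norm_nonneg _) h2 two_ne_zero).1 h7

theorem sz_up {e η : ℂ} (he : e ≠ 0) (hη : ‖η / (3 * e)‖ ≤ 1 / 1000) :
    sz cab (cA e η) (cB e η) ≤ 2 * ‖e‖ := by
  have he' : 3 * e ≠ 0 := mul_ne_zero three_ne_zero he
  have he0 : 0 < ‖e‖ := norm_pos_iff.2 he
  have h3 : cA e η = -(e ^ 2 * (3 + 9 * (η / (3 * e)) ^ 2)) := by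
    unfold cA
    field_simp
    ring
  have h3' : cB e η = 2 * e ^ 3 * (1 - 9 * (η / (3 * e)) ^ 2) := by
    unfold cB
    field_simp
    ring
  have h4 : ‖(9 : ℂ) * (η / (3 * e)) ^ 2‖ ≤ 1 := by
    rw [norm_mul, norm_pow]
    have := pow_le_pow_left₀ (norm_nonneg _) hη 2
    norm_num at this ⊢
    linarith
  have h5 : ‖(3 : ℂ) + 9 * (η / (3 * e)) ^ 2‖ ≤ 4 := by
    have := norm_add_le (3 : ℂ) (9 * (η / (3 * e)) ^ 2)
    have h3 : ‖(3 : ℂ)‖ = 3 := by norm_num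
    linarith
  have h5' : ‖(1 : ℂ) - 9 * (η / (3 * e)) ^ 2‖ ≤ 2 := by
    have := norm_sub_le (1 : ℂ) (9 * (η / (3 * e)) ^ 2)
    rw [norm_one] at this
    linarith
  have h6 : cab (cA e η) ≤ (2 * ‖e‖) ^ 2 := by
    rw [cab_apply, h3, norm_neg, norm_mul, norm_pow]
    nlinarith [sq_nonneg ‖e‖]
  have h7 : cab (cB e η) ≤ (2 * ‖e‖) ^ 3 := by
    rw [cab_apply, h3', norm_mul, norm_mul, norm_pow]
    have : ‖(2 : ℂ)‖ = 2 := by norm_num
    rw [this]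
    have h8 : 0 < ‖e‖ ^ 3 := by positivity
    nlinarith
  unfold sz
  refine max_le ?_ ?_
  · have := Real.rpow_le_rpow (cab.nonneg _) h6 (by norm_num : (0 : ℝ) ≤ 1 / 2)
    rwa [← Real.rpow_natCast (2 * ‖e‖) 2, ← Real.rpow_mul (by positivity),
      show ((2 : ℕ) : ℝ) * (1 / 2) = 1 by norm_num, Real.rpow_one] at this
  · have := Real.rpow_le_rpow (cab.nonneg _) h7 (by norm_num : (0 : ℝ) ≤ 1 / 3)
    rwa [← Real.rpow_natCast (2 * ‖e‖) 3, ← Real.rpow_mul (by positivity),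
      show ((3 : ℕ) : ℝ) * (1 / 3) = 1 by norm_num, Real.rpow_one] at this

theorem t_KAP : S_KAP := by
  refine ⟨4 * Real.log 4 + Real.log 32, by positivity, ?_⟩
  intro e η x he hη hsm
  have he0 : 0 < ‖e‖ := norm_pos_iff.2 he
  set s := η / (3 * e) with hs
  set z := (x - e) / (3 * e) with hz
  have hs0 : s ≠ 0 := div_ne_zero hη (mul_ne_zero three_ne_zero he)
  have h0 : 0 < ‖s‖ := norm_pos_iff.2 hs0
  have hx : x = e * (1 + 3 * z) := by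
    rw [hz]
    field_simp
    ring
  have hη' : η = 3 * e * s := by
    rw [hs]
    field_simp
  have hε : ‖s ^ 2‖ = ‖s‖ ^ 2 := norm_pow _ _
  have k1 := key_ineq (z := z) h0 hsm hε
  have hG : pG (cA e η) (cB e η) x = 108 * e ^ 3 * ((1 + z) * (z ^ 2 - s ^ 2)) := by
    rw [hx, hη']
    unfold pG cA cB
    ring
  have hF : pF (cA e η) (cB e η) x - e * pG (cA e η) (cB e η) x =
      81 * e ^ 4 * ((z ^ 2 - s ^ 2) ^ 2 + 4 * s ^ 2 * (z + 1) ^ 2) := by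
    rw [hx, hη']
    unfold pF pG cA cB
    ring
  have z1 := sz_low (η := η) he hsm
  have z2 := sz_up (η := η) he hsm
  set S := sz cab (cA e η) (cB e η) with hS
  set F := pF (cA e η) (cB e η) x with hFd
  set G := pG (cA e η) (cB e η) x with hGd
  unfold kap
  rw [← hS, ← hFd, ← hGd]
  simp only [cab_apply]
  have n108 : ‖(108 : ℂ)‖ = 108 := by norm_num
  have n81 : ‖(81 : ℂ)‖ = 81 := by norm_num
  have n3 : ‖(3 : ℂ)‖ = 3 := by norm_num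
  have hS0 : 0 < S := he0.trans_le z1
  -- the numerator
  have u1 : max ‖x‖ S ≤ 4 * ‖e‖ * max ‖z‖ 1 := by
    have y1 : (1 : ℝ) ≤ max ‖z‖ 1 := le_max_right _ _
    have y2 : ‖z‖ ≤ max ‖z‖ 1 := le_max_left _ _
    refine max_le ?_ ?_
    · rw [hx, norm_mul]
      have y3 : ‖1 + 3 * z‖ ≤ 1 + 3 * ‖z‖ := by
        have := norm_add_le (1 : ℂ) (3 * z)
        rwa [norm_one, norm_mul, n3] at this
      nlinarith
    · nlinarith
  have u2 : 0 < max ‖x‖ S := hS0.trans_le (le_max_right _ _)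
  -- the denominator
  have v1 : ‖F - e * G‖ ≤ 2 * max ‖F‖ (S * ‖G‖) := by
    have y1 := norm_sub_le F (e * G)
    rw [norm_mul] at y1
    have y2 : ‖F‖ ≤ max ‖F‖ (S * ‖G‖) := le_max_left _ _
    have y3 : S * ‖G‖ ≤ max ‖F‖ (S * ‖G‖) := le_max_right _ _
    have y4 : ‖e‖ * ‖G‖ ≤ S * ‖G‖ := mul_le_mul_of_nonneg_right z1 (norm_nonneg _)
    linarith
  have v2 : ‖e‖ * ‖G‖ ≤ 2 * max ‖F‖ (S * ‖G‖) := by
    have y3 : S * ‖G‖ ≤ max ‖F‖ (S * ‖G‖) := le_max_right _ _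
    have y4 : ‖e‖ * ‖G‖ ≤ S * ‖G‖ := mul_le_mul_of_nonneg_right z1 (norm_nonneg _)
    have y5 : 0 ≤ ‖e‖ * ‖G‖ := by positivity
    linarith
  set N := ‖(z ^ 2 - s ^ 2) ^ 2 + 4 * s ^ 2 * (z + 1) ^ 2‖ with hN
  rw [hF, norm_mul, norm_mul, norm_pow, n81, ← hN] at v1
  set Q := ‖1 + z‖ * ‖z ^ 2 - s ^ 2‖ with hQ
  have hGn : ‖G‖ = 108 * ‖e‖ ^ 3 * Q := by
    rw [hG, norm_mul, norm_mul, norm_mul, norm_pow, n108]
  set R := max ‖F‖ (S * ‖G‖) with hR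
  have he4 : 0 < ‖e‖ ^ 4 := by positivity
  have w1 : ‖e‖ ^ 4 * max N Q ≤ R := by
    have hN0 : 0 ≤ N := norm_nonneg _
    have hQ0 : 0 ≤ Q := by positivity
    rw [mul_max_of_nonneg _ _ he4.le]
    refine max_le ?_ ?_
    · have : 0 ≤ ‖e‖ ^ 4 * N := by positivity
      nlinarith
    · have : 0 ≤ ‖e‖ ^ 4 * Q := by positivity
      have y : ‖e‖ * ‖G‖ = 108 * (‖e‖ ^ 4 * Q) := by
        rw [hGn]
        ring
      linarith
  have hA0 : 0 < clp ‖s‖ z := h0.trans_le (le_max_right _ _)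
  have hM0 : (0 : ℝ) < max ‖z‖ 1 := lt_of_lt_of_le one_pos (le_max_right _ _)
  have w2 : ‖e‖ ^ 4 * (clp ‖s‖ z ^ 2 * max ‖z‖ 1 ^ 4) ≤ 32 * R := by
    have := mul_le_mul_of_nonneg_left k1 he4.le
    linarith
  have w3 : Real.log (‖e‖ ^ 4 * (clp ‖s‖ z ^ 2 * max ‖z‖ 1 ^ 4)) ≤ Real.log (32 * R) :=
    Real.log_le_log (by positivity) w2
  have hR0 : 0 < R := by
    have : 0 < ‖e‖ ^ 4 * (clp ‖s‖ z ^ 2 * max ‖z‖ 1 ^ 4) := by positivity
    linarith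
  rw [Real.log_mul he4.ne' (by positivity), Real.log_mul (by positivity) (by positivity),
    Real.log_pow, Real.log_pow, Real.log_pow, Real.log_mul (by norm_num) hR0.ne'] at w3
  have w4 : Real.log (max ‖x‖ S) ≤ Real.log (4 * ‖e‖ * max ‖z‖ 1) := Real.log_le_log u2 u1
  rw [Real.log_mul (by positivity) hM0.ne', Real.log_mul (by norm_num) he0.ne'] at w4
  unfold lev
  push_cast at w3
  linarith

end Pool.Agent.P8H66.TQ
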