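import Mathlib
import Pool.Agent.P8H9.TQ.Stm

/-!
# Project TQ (helper9), package NEAR: the levels of the sum and the difference (author helper66)
-/

set_option autoImplicit false

namespace Pool.Agent.P8H66.TQ

open Pool.Agent.P8H9.TQ

theorem clp_ge (h : ℝ) (z : ℂ) : h ≤ clp h z := le_max_right _ _

theorem clp_le (h : ℝ) (hh : h ≤ 1) (z : ℂ) : clp h z ≤ 1 := max_le (min_le_right _ _) hh

theorem clp_pos {h : ℝ} (hh : 0 < h) (z : ℂ) : 0 < clp h z := hh.trans_le (clp_ge h z)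

theorem clp_eq_exp {h : ℝ} (hh : 0 < h) (z : ℂ) : clp h z = Real.exp (-lev h z) := by
  unfold lev
  rw [neg_neg, Real.exp_log (clp_pos hh z)]

theorem lev_nonneg {h : ℝ} (hh : 0 < h) (h1 : h ≤ 1) (z : ℂ) : 0 ≤ lev h z := by
  unfold lev
  have := Real.log_nonpos (clp_pos hh z).le (clp_le h h1 z)
  linarith

theorem lev_le {h : ℝ} (hh : 0 < h) (z : ℂ) : lev h z ≤ -Real.log h := by
  unfold lev
  have := Real.log_le_log hh (clp_ge h z)
  linarith

/-- the factor of one point -/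
theorem clp_max {h ρ : ℝ} (h1 : h ≤ ρ) (h2 : ρ ≤ 1) (z : ℂ) :
    max (clp h z) ρ * max ‖z‖ 1 = max ‖z‖ ρ := by
  unfold clp
  rcases le_total ‖z‖ 1 with hz | hz
  · rw [min_eq_left hz, max_eq_right hz, mul_one, max_assoc, max_eq_right h1]
  · rw [min_eq_right hz, max_eq_left hz, max_eq_left (h1.trans h2), max_eq_left h2, one_mul,
      max_eq_left (h2.trans hz)]

theorem phi_up (p m : ℂ) {ρ : ℝ} (h0 : 0 < ρ) :
    max (ρ ^ 2) (max (ρ * ‖p + m‖) ‖p * m‖) ≤ 2 * (max ‖p‖ ρ * max ‖m‖ ρ) := by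
  have hp : ‖p‖ ≤ max ‖p‖ ρ := le_max_left _ _
  have hm : ‖m‖ ≤ max ‖m‖ ρ := le_max_left _ _
  have hp' : ρ ≤ max ‖p‖ ρ := le_max_right _ _
  have hm' : ρ ≤ max ‖m‖ ρ := le_max_right _ _
  set P := max ‖p‖ ρ
  set M := max ‖m‖ ρ
  have hP : 0 < P := h0.trans_le hp'
  have hM : 0 < M := h0.trans_le hm'
  have h1 : ρ * ρ ≤ P * M := mul_le_mul hp' hm' h0.le hP.le
  have h2 : ‖p‖ * ‖m‖ ≤ P * M := mul_le_mul hp hm (norm_nonneg _) hP.le
  have h3 : ‖p‖ * ρ ≤ P * M := mul_le_mul hp hm' h0.le hP.le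
  have h4 : ρ * ‖m‖ ≤ P * M := mul_le_mul hp' hm (norm_nonneg _) hP.le
  have h5 : 0 < P * M := mul_pos hP hM
  refine max_le ?_ (max_le ?_ ?_)
  · nlinarith
  · have := mul_le_mul_of_nonneg_left (norm_add_le p m) h0.le
    nlinarith
  · rw [norm_mul]
    linarith

theorem half_part (p m : ℂ) {ρ : ℝ} (h0 : 0 < ρ) :
    ‖p‖ * ρ ≤ 2 * max (ρ ^ 2) (max (ρ * ‖p + m‖) ‖p * m‖) := by
  have h1 : ρ ^ 2 ≤ max (ρ ^ 2) (max (ρ * ‖p + m‖) ‖p * m‖) := le_max_left _ _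
  have h2 : ρ * ‖p + m‖ ≤ max (ρ ^ 2) (max (ρ * ‖p + m‖) ‖p * m‖) :=
    (le_max_left _ _).trans (le_max_right _ _)
  have h3 : ‖p‖ * ‖m‖ ≤ max (ρ ^ 2) (max (ρ * ‖p + m‖) ‖p * m‖) := by
    rw [← norm_mul]
    exact (le_max_right _ _).trans (le_max_right _ _)
  rcases le_total ‖m‖ (‖p‖ / 2) with hm | hm
  · have h4 : ‖p‖ - ‖m‖ ≤ ‖p + m‖ := by
      have := norm_sub_norm_le p (-m)
      rwa [norm_neg, sub_neg_eq_add] at this
    have h5 : ‖p‖ / 2 ≤ ‖p + m‖ := by linarith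
    have h6 := mul_le_mul_of_nonneg_left h5 h0.le
    linarith
  · rcases le_total ρ ‖p‖ with hp | hp
    · have h4 : ‖p‖ * ρ ≤ ‖p‖ * ‖p‖ := mul_le_mul_of_nonneg_left hp (norm_nonneg _)
      have h5 : ‖p‖ * (‖p‖ / 2) ≤ ‖p‖ * ‖m‖ := mul_le_mul_of_nonneg_left hm (norm_nonneg _)
      linarith
    · have h4 : ‖p‖ * ρ ≤ ρ * ρ := mul_le_mul_of_nonneg_right hp h0.le
      nlinarith [sq_nonneg ρ]

theorem phi_low (p m : ℂ) {ρ : ℝ} (h0 : 0 < ρ) :
    max ‖p‖ ρ * max ‖m‖ ρ ≤ 2 * max (ρ ^ 2) (max (ρ * ‖p + m‖) ‖p * m‖) := by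
  have h1 : ρ ^ 2 ≤ max (ρ ^ 2) (max (ρ * ‖p + m‖) ‖p * m‖) := le_max_left _ _
  have h3 : ‖p‖ * ‖m‖ ≤ max (ρ ^ 2) (max (ρ * ‖p + m‖) ‖p * m‖) := by
    rw [← norm_mul]
    exact (le_max_right _ _).trans (le_max_right _ _)
  have h4 := half_part p m h0
  have h5 := half_part m p h0
  rw [add_comm m p, mul_comm m p] at h5
  have h6 : 0 < ρ ^ 2 := by positivity
  have h7 : 0 ≤ ‖p‖ * ‖m‖ := by positivity
  rcases le_total ‖p‖ ρ with hp | hp <;> rcases le_total ‖m‖ ρ with hm | hm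
  · rw [max_eq_right hp, max_eq_right hm]
    nlinarith
  · rw [max_eq_right hp, max_eq_left hm]
    linarith
  · rw [max_eq_left hp, max_eq_right hm]
    linarith
  · rw [max_eq_left hp, max_eq_left hm]
    linarith

/-- two pairs of levels with the same truncated sums, up to an error -/
theorem near_abs {s t s' t' H κ : ℝ} (hs : 0 ≤ s) (hsH : s ≤ H) (ht : 0 ≤ t) (htH : t ≤ H)
    (hs' : 0 ≤ s') (hst : s' ≤ t') (htH' : t' ≤ H)
    (h : ∀ r, 0 ≤ r → r ≤ H → |min s r + min t r - (min s' r + min t' r)| ≤ κ) :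
    Near (2 * κ) s t s' t' := by
  have key : ∀ s t : ℝ, 0 ≤ s → s ≤ t → t ≤ H →
      (∀ r, 0 ≤ r → r ≤ H → |min s r + min t r - (min s' r + min t' r)| ≤ κ) →
      |s - s'| ≤ 2 * κ ∧ |t - t'| ≤ 2 * κ := by
    intro s t hs hst2 htH h
    have h1 := h s' hs' (hst.trans htH')
    have h2 := h s hs (hst2.trans htH)
    have h3 := h H (hs.trans (hst2.trans htH)) le_rfl
    rw [min_self, min_eq_right hst] at h1
    rw [min_self, min_eq_right hst2] at h2
    rw [min_eq_left (hst2.trans htH), min_eq_left htH, min_eq_left (hst.trans htH'),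
      min_eq_left htH'] at h3
    have a1 : min s s' ≤ s := min_le_left _ _
    have a2 : min t s' ≤ s' := min_le_right _ _
    have a3 : min s' s ≤ s' := min_le_left _ _
    have a4 : min t' s ≤ s := min_le_right _ _
    rw [abs_le] at h1 h2 h3
    obtain ⟨b1, b2⟩ := h1
    obtain ⟨b3, b4⟩ := h2
    obtain ⟨b5, b6⟩ := h3
    constructor <;> rw [abs_le] <;> constructor <;> linarith
  rcases le_total s t with hh | hh
  · exact Or.inl (key s t hs hh htH h)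
  · refine Or.inr ?_
    have := key t s ht hh hsH (fun r h0 h1 => by rw [add_comm (min t r)]; exact h r h0 h1)
    exact ⟨this.2, this.1⟩

theorem max_exp (x y : ℝ) : max (Real.exp (-x)) (Real.exp (-y)) = Real.exp (-min x y) := by
  rcases le_total x y with h | h
  · rw [min_eq_left h, max_eq_left (Real.exp_le_exp.2 (by linarith))]
  · rw [min_eq_right h, max_eq_right (Real.exp_le_exp.2 (by linarith))]

theorem size_aux {a b H r : ℝ} (ha0 : 0 ≤ a) (ha1 : a ≤ H) (hb1 : b ≤ H)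
    (hr0 : 0 ≤ r) (hr1 : r ≤ H) (hab : a ≤ b) :
    min (2 * r + 2 * a) (min (r + a + b) (min (2 * a + 2 * b) (2 * H))) =
      min (b - a) r + min (min (a + b) (2 * H - a - b)) r + 2 * a := by
  have e1 := min_cases (2 * a + 2 * b) (2 * H)
  have e2 := min_cases (a + b) (2 * H - a - b)
  have e3 := min_cases (b - a) r
  generalize min (2 * a + 2 * b) (2 * H) = x1 at e1 ⊢
  generalize min (a + b) (2 * H - a - b) = x2 at e2 ⊢
  generalize min (b - a) r = x3 at e3 ⊢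
  have e4 := min_cases (r + a + b) x1
  have e5 := min_cases x2 r
  generalize min (r + a + b) x1 = x4 at e4 ⊢
  generalize min x2 r = x5 at e5 ⊢
  have e6 := min_cases (2 * r + 2 * a) x4
  generalize min (2 * r + 2 * a) x4 = x6 at e6 ⊢
  rcases e1 with ⟨e1, f1⟩ | ⟨e1, f1⟩ <;> rcases e2 with ⟨e2, f2⟩ | ⟨e2, f2⟩ <;>
  rcases e3 with ⟨e3, f3⟩ | ⟨e3, f3⟩ <;> rcases e4 with ⟨e4, f4⟩ | ⟨e4, f4⟩ <;>
  rcases e5 with ⟨e5, f5⟩ | ⟨e5, f5⟩ <;> rcases e6 with ⟨e6, f6⟩ | ⟨e6, f6⟩ <;> linarith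

theorem size_eq {a b H r : ℝ} (ha0 : 0 ≤ a) (hb0 : 0 ≤ b) (ha1 : a ≤ H) (hb1 : b ≤ H)
    (hr0 : 0 ≤ r) (hr1 : r ≤ H) :
    min (2 * r + 2 * min a b) (min (r + a + b) (min (2 * a + 2 * b) (2 * H))) =
      min |a - b| r + min (min (a + b) (2 * H - a - b)) r + 2 * min a b := by
  rcases le_total a b with g | g
  · rw [min_eq_left g, abs_of_nonpos (by linarith), neg_sub]
    exact size_aux ha0 ha1 hb1 hr0 hr1 g
  · rw [min_eq_right g, abs_of_nonneg (by linarith)]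
    have := size_aux hb0 hb1 ha1 hr0 hr1 g
    rw [show r + a + b = r + b + a by ring, show 2 * a + 2 * b = 2 * b + 2 * a by ring,
      show a + b = b + a by ring, show 2 * H - a - b = 2 * H - b - a by ring]
    exact this

theorem t_NEAR : S_NEAR := by
  rintro ⟨c₁, c₂, hc₁, hc₂, hG⟩
  refine ⟨2 * |Real.log (4 * c₂ / c₁)|, by positivity, ?_⟩
  intro h ε z₁ z₂ zp zm h0 hh hε hne hS hP
  have h1 : h ≤ 1 := hh.trans (by norm_num)
  have eH : h = Real.exp (-(-Real.log h)) := by rw [neg_neg, Real.exp_log h0]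
  set H := -Real.log h with hH
  have ha0 := lev_nonneg h0 h1 z₁
  have hb0 := lev_nonneg h0 h1 z₂
  have ha1 := lev_le h0 z₁
  have hb1 := lev_le h0 z₂
  have hs0 := lev_nonneg h0 h1 zp
  have ht0 := lev_nonneg h0 h1 zm
  have hs1 := lev_le h0 zp
  have ht1 := lev_le h0 zm
  have eA := clp_eq_exp h0 z₁
  have eB := clp_eq_exp h0 z₂
  have eX := clp_eq_exp h0 zp
  have eY := clp_eq_exp h0 zm
  rw [← hH] at ha1 hb1 hs1 ht1
  set a := lev h z₁ with ha
  set b := lev h z₂ with hb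
  set s := lev h zp with hs
  set t := lev h zm with ht
  have q1 : |a - b| ≤ min (a + b) (2 * H - a - b) := by
    rw [le_min_iff, abs_le, abs_le]
    refine ⟨⟨?_, ?_⟩, ?_, ?_⟩ <;> linarith
  have q2 : min (a + b) (2 * H - a - b) ≤ H := by
    rcases le_total (a + b) H with g | g
    · exact (min_le_left _ _).trans g
    · exact (min_le_right _ _).trans (by linarith)
  refine near_abs hs0 hs1 ht0 ht1 (abs_nonneg _) q1 q2 ?_
  intro r hr0 hr1
  obtain ⟨g1, g2⟩ := hG h (Real.exp (-r)) ε z₁ z₂ h0 hh hε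
    (by rw [eH]; exact Real.exp_le_exp.2 (by linarith)) (Real.exp_le_one_iff.2 (by linarith))
  obtain ⟨k1, k2⟩ := hG h 1 ε z₁ z₂ h0 hh hε h1 le_rfl
  rw [← hS, ← hP, norm_mul, norm_mul _ (zp * zm)] at g1 g2 k1 k2
  have hD : 0 < ‖(z₁ - z₂) ^ 2‖ := by
    rw [norm_pos_iff]
    exact pow_ne_zero 2 (sub_ne_zero.2 hne)
  set D := ‖(z₁ - z₂) ^ 2‖ with hDd
  set M := (max 1 ‖z₁‖ * max 1 ‖z₂‖) ^ 2 with hM
  have hM0 : 0 < M := by positivity
  set ρ := Real.exp (-r) with hρ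
  have hρ0 : 0 < ρ := Real.exp_pos _
  have hρh : h ≤ ρ := by rw [eH]; exact Real.exp_le_exp.2 (by linarith)
  have hρ1 : ρ ≤ 1 := Real.exp_le_one_iff.2 (by linarith)
  have fac : ∀ ρ : ℝ, 0 < ρ → max (ρ ^ 2 * D) (max (ρ * (D * ‖zp + zm‖)) (D * ‖zp * zm‖)) =
      D * max (ρ ^ 2) (max (ρ * ‖zp + zm‖) ‖zp * zm‖) := by
    intro ρ _
    rw [mul_max_of_nonneg _ _ hD.le, mul_max_of_nonneg _ _ hD.le]
    congr 1
    · ring
    · congr 1
      ring
  rw [fac ρ hρ0] at g1 g2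
  rw [fac 1 one_pos] at k1 k2
  have u1 := phi_up zp zm hρ0
  have u2 := phi_low zp zm hρ0
  have u3 := phi_up zp zm (one_pos : (0 : ℝ) < 1)
  have u4 := phi_low zp zm (one_pos : (0 : ℝ) < 1)
  set F := max (ρ ^ 2) (max (ρ * ‖zp + zm‖) ‖zp * zm‖) with hF
  set F1 := max ((1 : ℝ) ^ 2) (max (1 * ‖zp + zm‖) ‖zp * zm‖) with hF1
  -- the size at `ρ`
  have eR : max (ρ ^ 2 * max (clp h z₁) (clp h z₂) ^ 2) (max (ρ * (clp h z₁ * clp h z₂))
      (max ((clp h z₁ * clp h z₂) ^ 2) (h ^ 2))) =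
      Real.exp (-(min |a - b| r + min (min (a + b) (2 * H - a - b)) r + 2 * min a b)) := by
    rw [eA, eB, max_exp]
    conv_lhs => rw [eH]
    rw [hρ]
    simp only [← Real.exp_add, ← Real.exp_nat_mul]
    rw [show (-r : ℝ) + (-a + -b) = -(r + a + b) by ring,
      show ((2 : ℕ) : ℝ) * -r + ((2 : ℕ) : ℝ) * -min a b = -(2 * r + 2 * min a b) by push_cast; ring,
      show ((2 : ℕ) : ℝ) * (-a + -b) = -(2 * a + 2 * b) by push_cast; ring,
      show ((2 : ℕ) : ℝ) * -H = -(2 * H) by push_cast; ring, max_exp, max_exp, max_exp]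
    rw [size_eq ha0 hb0 ha1 hb1 hr0 hr1]
  have eR1 : max ((1 : ℝ) ^ 2 * max (clp h z₁) (clp h z₂) ^ 2) (max (1 * (clp h z₁ * clp h z₂))
      (max ((clp h z₁ * clp h z₂) ^ 2) (h ^ 2))) = Real.exp (-(2 * min a b)) := by
    rw [eA, eB, max_exp]
    conv_lhs => rw [eH]
    rw [one_pow, one_mul, one_mul]
    simp only [← Real.exp_add, ← Real.exp_nat_mul]
    rw [show (-a + -b : ℝ) = -(a + b) by ring,
      show ((2 : ℕ) : ℝ) * -min a b = -(2 * min a b) by push_cast; ring,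
      show ((2 : ℕ) : ℝ) * -(a + b) = -(2 * a + 2 * b) by push_cast; ring,
      show ((2 : ℕ) : ℝ) * -H = -(2 * H) by push_cast; ring, max_exp, max_exp, max_exp]
    congr 2
    rw [min_eq_left_iff, le_min_iff, le_min_iff]
    rcases le_total a b with g | g
    · rw [min_eq_left g]
      refine ⟨?_, ?_, ?_⟩ <;> linarith
    · rw [min_eq_right g]
      refine ⟨?_, ?_, ?_⟩ <;> linarith
  rw [eR] at g1 g2
  rw [eR1] at k1 k2
  set T := min |a - b| r + min (min (a + b) (2 * H - a - b)) r with hT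
  set m2 := 2 * min a b with hm2
  -- the two factors
  have e1 : max ‖zp‖ ρ * max ‖zm‖ ρ =
      Real.exp (-(min s r + min t r)) * (max ‖zp‖ 1 * max ‖zm‖ 1) := by
    rw [← clp_max hρh hρ1 zp, ← clp_max hρh hρ1 zm, eX, eY, hρ, max_exp, max_exp, neg_add,
      Real.exp_add]
    ring
  rw [e1] at u1 u2
  set E := Real.exp (-(min s r + min t r)) with hE
  set V := max ‖zp‖ 1 * max ‖zm‖ 1 with hV
  have hE0 : 0 < E := Real.exp_pos _
  have hV0 : 0 < V := by positivity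
  have eT : Real.exp (-(T + m2)) = Real.exp (-T) * Real.exp (-m2) := by
    rw [neg_add, Real.exp_add]
  rw [eT] at g1 g2
  set W := Real.exp (-T) with hW
  set N := Real.exp (-m2) with hN
  have hW0 : 0 < W := Real.exp_pos _
  have hN0 : 0 < N := Real.exp_pos _
  have r1 : c₁ * E ≤ 4 * c₂ * W := by
    have x1 : D * (E * V) ≤ 2 * (c₂ * (M * (W * N))) := by
      have := mul_le_mul_of_nonneg_left u2 hD.le
      linarith
    have x2 : c₁ * (M * N) ≤ D * (2 * V) := by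
      have := mul_le_mul_of_nonneg_left u3 hD.le
      linarith
    have x3 : c₁ * (M * N) * E ≤ D * (2 * V) * E := mul_le_mul_of_nonneg_right x2 hE0.le
    have x4 : (c₁ * E) * (M * N) ≤ (4 * c₂ * W) * (M * N) := by nlinarith
    exact le_of_mul_le_mul_right x4 (mul_pos hM0 hN0)
  have r2 : c₁ * W ≤ 4 * c₂ * E := by
    have x1 : c₁ * (M * (W * N)) ≤ D * (2 * (E * V)) := by
      have := mul_le_mul_of_nonneg_left u1 hD.le
      linarith
    have x2 : D * V ≤ 2 * (c₂ * (M * N)) := by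
      have := mul_le_mul_of_nonneg_left u4 hD.le
      linarith
    have x3 : D * V * E ≤ 2 * (c₂ * (M * N)) * E := mul_le_mul_of_nonneg_right x2 hE0.le
    have x4 : (c₁ * W) * (M * N) ≤ (4 * c₂ * E) * (M * N) := by nlinarith
    exact le_of_mul_le_mul_right x4 (mul_pos hM0 hN0)
  have hK : 0 < 4 * c₂ / c₁ := by positivity
  have y1 : E / W ≤ 4 * c₂ / c₁ := by
    rw [div_le_div_iff₀ hW0 hc₁]
    linarith
  have y2 : W / E ≤ 4 * c₂ / c₁ := by
    rw [div_le_div_iff₀ hE0 hc₁]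
    linarith
  have z1 : E / W = Real.exp (T - (min s r + min t r)) := by
    rw [hE, hW, ← Real.exp_sub]
    congr 1
    ring
  have z2 : W / E = Real.exp (min s r + min t r - T) := by
    rw [hE, hW, ← Real.exp_sub]
    congr 1
    ring
  rw [z1, ← Real.le_log_iff_exp_le hK] at y1
  rw [z2, ← Real.le_log_iff_exp_le hK] at y2
  rw [abs_le]
  have y3 := le_abs_self (Real.log (4 * c₂ / c₁))
  constructor <;> linarith

end Pool.Agent.P8H66.TQ
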