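import Mathlib
import Pool.Agent.P8H9.TQ.Stm

/-!
# Project TQ (helper9), package ROOT: a large invariant, two of the three roots are close (author helper66)
-/

set_option autoImplicit false

namespace Pool.Agent.P8H66.TQ

open Pool.Agent.P8H9.TQ Pool.Agent.Y673.Loc Pool.Agent.Y733.LS

theorem exists_pair (a b : ℂ) : ∃ e η : ℂ, a = cA e η ∧ b = cB e η := by
  obtain ⟨r, hr⟩ : ∃ r : ℂ, r ^ 3 + a * r + b = 0 := by
    obtain ⟨r, hr⟩ := IsAlgClosed.exists_root (Polynomial.X ^ 3 + Polynomial.C a * Polynomial.X +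
      Polynomial.C b : Polynomial ℂ) (by
        have : (Polynomial.X ^ 3 + Polynomial.C a * Polynomial.X + Polynomial.C b :
          Polynomial ℂ).degree = 3 := by compute_degree!
        rw [this]
        norm_num)
    refine ⟨r, ?_⟩
    simpa [Polynomial.IsRoot] using hr
  obtain ⟨d, hd⟩ := IsAlgClosed.exists_pow_nat_eq (-3 * r ^ 2 - 4 * a) (n := 2) two_pos
  refine ⟨-r / 2, d / 2, ?_, ?_⟩
  · unfold cA
    linear_combination (1 / 4) * hd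
  · unfold cB
    linear_combination hr - (r / 4) * hd

theorem exists_min (a b : ℂ) : ∃ e η : ℂ, a = cA e η ∧ b = cB e η ∧ ‖2 * η‖ ≤ ‖3 * e + η‖ ∧
    ‖2 * η‖ ≤ ‖3 * e - η‖ := by
  obtain ⟨e, η, h1, h2⟩ := exists_pair a b
  by_cases c1 : ‖2 * η‖ ≤ ‖3 * e + η‖ ∧ ‖2 * η‖ ≤ ‖3 * e - η‖
  · exact ⟨e, η, h1, h2, c1.1, c1.2⟩
  rcases le_total ‖3 * e + η‖ ‖3 * e - η‖ with c2 | c2
  · -- the difference `3 e + η` is the smallest one
    have c3 : ‖3 * e + η‖ ≤ ‖2 * η‖ := by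
      by_contra hc
      push Not at hc
      exact c1 ⟨hc.le, hc.le.trans c2⟩
    refine ⟨-(e - η) / 2, -(3 * e + η) / 2, ?_, ?_, ?_, ?_⟩
    · rw [h1]
      unfold cA
      ring
    · rw [h2]
      unfold cB
      ring
    · rw [show (2 : ℂ) * (-(3 * e + η) / 2) = -(3 * e + η) by ring,
        show (3 : ℂ) * (-(e - η) / 2) + -(3 * e + η) / 2 = -(3 * e - η) by ring, norm_neg, norm_neg]
      exact c2
    · rw [show (2 : ℂ) * (-(3 * e + η) / 2) = -(3 * e + η) by ring,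
        show (3 : ℂ) * (-(e - η) / 2) - -(3 * e + η) / 2 = 2 * η by ring, norm_neg]
      exact c3
  · have c3 : ‖3 * e - η‖ ≤ ‖2 * η‖ := by
      by_contra hc
      push Not at hc
      exact c1 ⟨hc.le.trans c2, hc.le⟩
    refine ⟨-(e + η) / 2, -(3 * e - η) / 2, ?_, ?_, ?_, ?_⟩
    · rw [h1]
      unfold cA
      ring
    · rw [h2]
      unfold cB
      ring
    · rw [show (2 : ℂ) * (-(3 * e - η) / 2) = -(3 * e - η) by ring,
        show (3 : ℂ) * (-(e + η) / 2) + -(3 * e - η) / 2 = -(3 * e + η) by ring, norm_neg, norm_neg]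
      exact c2
    · rw [show (2 : ℂ) * (-(3 * e - η) / 2) = -(3 * e - η) by ring,
        show (3 : ℂ) * (-(e + η) / 2) - -(3 * e - η) / 2 = -(2 * η) by ring, norm_neg, norm_neg]
      exact c3

theorem t_ROOT : S_ROOT := by
  refine ⟨1152 * 1000000, Real.log 1152, by norm_num, Real.log_nonneg (by norm_num), ?_⟩
  intro a b hd hj
  obtain ⟨e, η, h1, h2, h3, h4⟩ := exists_min a b
  have hdl : dl a b = -(4 * η ^ 2 * (9 * e ^ 2 - η ^ 2) ^ 2) := by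
    rw [h1, h2]
    unfold dl cA cB
    ring
  have hη : η ≠ 0 := by
    rintro rfl
    exact hd (by rw [hdl]; ring)
  have n2 : ‖(2 : ℂ)‖ = 2 := by norm_num
  have n3 : ‖(3 : ℂ)‖ = 3 := by norm_num
  rw [norm_mul, n2] at h3 h4
  have hη0 : 0 < ‖η‖ := norm_pos_iff.2 hη
  have he : e ≠ 0 := by
    rintro rfl
    rw [mul_zero, zero_add] at h3
    linarith
  have he0 : 0 < ‖e‖ := norm_pos_iff.2 he
  have par := parallelogram_law_with_norm ℂ (3 * e) η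
  have par2 : 3 * ‖η‖ ^ 2 ≤ ‖3 * e‖ ^ 2 := by nlinarith [norm_nonneg (3 * e + η), norm_nonneg (3 * e - η)]
  set s := η / (3 * e) with hs
  have hη' : η = 3 * e * s := by
    rw [hs]
    field_simp
  have hs0 : s ≠ 0 := div_ne_zero hη (mul_ne_zero three_ne_zero he)
  have hsn : 0 < ‖s‖ := norm_pos_iff.2 hs0
  have hsm : ‖s‖ ^ 2 ≤ 1 / 3 := by
    have h5 : ‖η‖ = ‖3 * e‖ * ‖s‖ := by rw [hη', norm_mul]
    have h6 : 0 < ‖3 * e‖ ^ 2 := by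
      have : (3 : ℂ) * e ≠ 0 := mul_ne_zero three_ne_zero he
      positivity
    rw [h5] at par2
    nlinarith
  have hj2 : jj a b = 64 * (1 + 3 * s ^ 2) ^ 3 / (s ^ 2 * (1 - s ^ 2) ^ 2) := by
    have h7 : (1 : ℂ) - s ^ 2 ≠ 0 := by
      intro h8
      apply hd
      rw [hdl, hη']
      have : (9 : ℂ) * e ^ 2 - (3 * e * s) ^ 2 = 9 * e ^ 2 * (1 - s ^ 2) := by ring
      rw [this, h8]
      ring
    unfold jj
    rw [show 4 * a ^ 3 + 27 * b ^ 2 = dl a b from rfl, hdl, h1, hη']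
    unfold cA
    rw [div_eq_div_iff]
    · ring
    · have h9 : (9 : ℂ) * e ^ 2 - (3 * e * s) ^ 2 = 9 * e ^ 2 * (1 - s ^ 2) := by ring
      rw [h9]
      have h10 : (3 : ℂ) * e * s ≠ 0 := by rw [← hη']; exact hη
      have h11 : (9 : ℂ) * e ^ 2 * (1 - s ^ 2) ≠ 0 :=
        mul_ne_zero (mul_ne_zero (by norm_num) (pow_ne_zero 2 he)) h7
      exact neg_ne_zero.2 (mul_ne_zero (mul_ne_zero (by norm_num) (pow_ne_zero 2 h10))
        (pow_ne_zero 2 h11))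
    · exact mul_ne_zero (pow_ne_zero 2 hs0) (pow_ne_zero 2 h7)
  have hnj : ‖jj a b‖ = 64 * ‖1 + 3 * s ^ 2‖ ^ 3 / (‖s‖ ^ 2 * ‖1 - s ^ 2‖ ^ 2) := by
    rw [hj2, norm_div, norm_mul, norm_mul, norm_pow, norm_pow, norm_pow]
    norm_num
  have n1 : ‖(3 : ℂ) * s ^ 2‖ = 3 * ‖s‖ ^ 2 := by rw [norm_mul, norm_pow, n3]
  have n4 : ‖s ^ 2‖ = ‖s‖ ^ 2 := norm_pow _ _
  have u1 : ‖1 + 3 * s ^ 2‖ ≤ 1 + 3 * ‖s‖ ^ 2 := by
    have := norm_add_le (1 : ℂ) (3 * s ^ 2)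
    rwa [norm_one, n1] at this
  have u2 : 1 - 3 * ‖s‖ ^ 2 ≤ ‖1 + 3 * s ^ 2‖ := by
    have := norm_sub_norm_le (1 : ℂ) (-(3 * s ^ 2))
    rwa [norm_one, norm_neg, n1, sub_neg_eq_add] at this
  have u3 : ‖1 - s ^ 2‖ ≤ 1 + ‖s‖ ^ 2 := by
    have := norm_sub_le (1 : ℂ) (s ^ 2)
    rwa [norm_one, n4] at this
  have u4 : 1 - ‖s‖ ^ 2 ≤ ‖1 - s ^ 2‖ := by
    have := norm_sub_norm_le (1 : ℂ) (s ^ 2)
    rwa [norm_one, n4] at this
  have v1 : ‖1 + 3 * s ^ 2‖ ^ 3 ≤ 2 ^ 3 :=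
    pow_le_pow_left₀ (norm_nonneg _) (by linarith) 3
  have v2 : (2 / 3) ^ 2 ≤ ‖1 - s ^ 2‖ ^ 2 := pow_le_pow_left₀ (by norm_num) (by linarith) 2
  have hε0 : 0 < ‖s‖ ^ 2 := by positivity
  have hup : ‖jj a b‖ * ‖s‖ ^ 2 ≤ 1152 := by
    have hden : 0 < ‖s‖ ^ 2 * ‖1 - s ^ 2‖ ^ 2 := by
      apply mul_pos hε0
      linarith
    rw [hnj, div_mul_eq_mul_div, div_le_iff₀ hden]
    nlinarith
  have hsmall : ‖s‖ ^ 2 ≤ 1 / 1000000 := by
    have h5 : 1152 * 1000000 * ‖s‖ ^ 2 ≤ ‖jj a b‖ * ‖s‖ ^ 2 :=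
      mul_le_mul_of_nonneg_right hj hε0.le
    linarith
  have hs3 : ‖s‖ ≤ 1 / 1000 := by
    have : ‖s‖ ^ 2 ≤ (1 / 1000) ^ 2 := by
      rw [show ((1 : ℝ) / 1000) ^ 2 = 1 / 1000000 by norm_num]
      exact hsmall
    exact (pow_le_pow_iff_left₀ hsn.le (by norm_num) two_ne_zero).1 this
  have hlow : 1 ≤ ‖jj a b‖ * ‖s‖ ^ 2 := by
    have hden : 0 < ‖s‖ ^ 2 * ‖1 - s ^ 2‖ ^ 2 := by
      apply mul_pos hε0
      linarith
    have w1 : (1 / 2) ^ 3 ≤ ‖1 + 3 * s ^ 2‖ ^ 3 :=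
      pow_le_pow_left₀ (by norm_num) (by linarith) 3
    have w2 : ‖1 - s ^ 2‖ ^ 2 ≤ 2 ^ 2 := pow_le_pow_left₀ (norm_nonneg _) (by linarith) 2
    rw [hnj, div_mul_eq_mul_div, le_div_iff₀ hden]
    nlinarith
  refine ⟨e, η, he, hη, h1, h2, hs3, ?_⟩
  have hjp : 0 < ‖jj a b‖ := lt_of_lt_of_le (by norm_num) hj
  have e1 : Real.log ‖jj a b‖ + 2 * Real.log ‖s‖ = Real.log (‖jj a b‖ * ‖s‖ ^ 2) := by
    rw [Real.log_mul hjp.ne' hε0.ne', Real.log_pow]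
    push_cast
    ring
  rw [e1, abs_of_nonneg (Real.log_nonneg hlow)]
  exact Real.log_le_log (by linarith) hup

end Pool.Agent.P8H66.TQ
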